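import Mathlib
import Pool.Agent.V11150.LionsSmall

set_option autoImplicit false

namespace Pool.Agent.Results.MP_95728c_co.NonMonotone

open Pool.Agent.V11150.Lions

/-- Q1 is false: there are a finite graph `G` and `k ≥ 1` such that `k` lions can sweep `G`, but
no sweep of `G` by `k` lions is monotonic. -/
theorem result : ∃ (V : Type) (_ : Finite V) (G : SimpleGraph V) (k : ℕ),
    1 ≤ k ∧ Sweeps G k ∧ ¬ MonoSweeps G k :=
  ⟨Fin 5, inferInstance, K23, 2, by omega, K_sweeps, K_not_mono⟩

end Pool.Agent.Results.MP_95728c_co.NonMonotone
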