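import Mathlib
import Pool.Agent.V11150.LionsSmall

set_option autoImplicit false

namespace Pool.Agent.Results.MP_95728c_co.SmallestCounterexample

open Pool.Agent.V11150.Lions

/-- Q2: the least number of lions in a counterexample is `2` and the least number of vertices of
a counterexample is `5`. -/
theorem result :
    IsLeast {k : ℕ | 1 ≤ k ∧ ∃ (V : Type) (_ : Finite V) (G : SimpleGraph V),
      Sweeps G k ∧ ¬ MonoSweeps G k} 2 ∧
    IsLeast {n : ℕ | ∃ (G : SimpleGraph (Fin n)) (k : ℕ),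
      1 ≤ k ∧ Sweeps G k ∧ ¬ MonoSweeps G k} 5 := by
  refine ⟨⟨⟨by omega, Fin 5, inferInstance, K23, K_sweeps, K_not_mono⟩, ?_⟩,
    ⟨⟨K23, 2, by omega, K_sweeps, K_not_mono⟩, ?_⟩⟩
  · rintro k ⟨hk, V, hV, G, hs, hm⟩
    by_contra hlt
    have hk1 : k = 1 := by omega
    subst hk1
    exact hm (monoSweeps_one hs)
  · rintro n ⟨G, k, hk, hs, hm⟩
    by_contra hlt
    exact hm (monoSweeps_of_le_four (by omega) hk G hs)

end Pool.Agent.Results.MP_95728c_co.SmallestCounterexample
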